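import Pool.Agent.H23NC.Full

/-!
# The size of `K_0` of the powers of a dg category over a finite field

Let `𝒜` be ANY smooth proper dg category over a finite field `k` of characteristic `p`, and write
`𝒜 ^ e = 𝒜^op ⊗ 𝒜`. Let `d (n)` be the dimension (a number or infinity) of the rational vector space
`K_0 ((𝒜 ^ e) ^ n)_ℚ` of the `n`-th tensor power, and `ρ (n)` the rank of `K_0 / Ker (χ)` of the same
dg category. The conjecture of the question predicts `d (n) = ρ (n)`.

Theorem. (Let `ρ (1) ≠ 0`.) The quotient `d (n) / ρ (n)` converges, for `n → ∞`, to a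
NATURAL NUMBER `N ≥ 1` or to infinity, and

* `N = 1` if and only if `Ker (χ_ℚ) = 0` for all `(𝒜 ^ e) ^ n`;
* if some product of `j` elements of `Ker (χ_ℚ)`, in the ring `K_0 ((𝒜 ^ e) ^ n)_ℚ` of the
  endomorphisms of the noncommutative motive of `𝒜 ^ n`, is not zero, then `N ≥ j + 1`;
* if `χ_ℚ ≠ 0` on `K_0 (𝒜)_ℚ`, and if some `K_0 (𝒜 ^ n)` has a non-torsion element in the kernel of
  the Euler pairing, then `N ≥ 2`, and `N = ∞` if this element has nonzero realisation;
* if `N` is finite, then all `K_0 ((𝒜 ^ e) ^ n)_ℚ` are finite-dimensional, and `Ker (χ_ℚ)` acts as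
  zero on the realisations: the noncommutative analogue of the standard conjecture of type D
  (Grothendieck, Kontsevich) holds for all `(𝒜 ^ e) ^ n`. There are finitely many idempotents `e i`
  modulo numerical equivalence on powers of `𝒜 ^ e`, of ranks `r i > 0`, such that `N = 1 + ∑ r i`
  and `d (n) = ρ (n) + ∑ dim Hom_num (e i, (𝒜 ^ e) ^ n)` for ALL `n`, and all the kernels are
  generated, under correspondences, by finitely many elements (at most as many as there are
  idempotents) of one of them.

So `Ker (χ_ℚ) = 0` holds for all `(𝒜 ^ e) ^ n` as soon as `d (n) ≤ c ρ (n)` for infinitely many `n`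
and a constant `c < 2`, and one bound `d (n) ≤ c ρ (n)` for infinitely many `n`, with any constant
`c`, gives finiteness of all `K_0`, the standard conjecture D and the nilpotence of the kernels.

The setting. `C` is the category of noncommutative Chow motives over `k` with rational coefficients
(Kontsevich, Tabuada): objects are the smooth proper dg categories, the morphisms from `𝒜` to `ℬ` are
`K_0 (𝒜^op ⊗ ℬ)_ℚ`; it is rigid symmetric monoidal, and `End (1) = K_0 (k)_ℚ = ℚ`. A morphism is
numerically trivial if all its composites with morphisms in the opposite direction have trace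
zero; by Marcolli and Tabuada these are the elements of `Ker (χ_ℚ)`. The realisation `R` is the
topological periodic cyclic homology `TP (-)[1 / p]` with its `ℤ/2`-grading, a symmetric monoidal
functor by Blumberg-Mandell and Tabuada, with coefficients extended from `Frac W (k)` to an algebraic
closure. `T` is the motive of `𝒜`, and `T ⊗ Tᘁ` the one of `𝒜 ^ e`.

What is new compared with the law for schemes (Results/MP_4960c7_ag/ProductsVanish, MP_28af06_ag/
ZeroOneLaw): no sign conjecture is used. For schemes over finite fields the sign conjecture `C⁺` is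
the theorem of Katz and Messing, and gives the existence of the limits `nr (e, T ^ n) / ρ (n)` by
linear algebra: a numerical idempotent of `T ^ m` has a rank, and the numerical quotient is a category
of representations of a pro-reductive super group. For dg categories the even and the odd part of
`TP` are not known to be algebraic (this is the noncommutative sign conjecture), and then there is no
such description and the numerical quotient has no realisation; it is only known to be semisimple.

Idea of the proof. On the numerical motives `M`, `N` cut out of powers of `S = T ⊗ Tᘁ` consider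
`⟨M, N⟩ = dim Hom_num (M, N)`. It is additive, and satisfies the inequality of Cauchy and Schwarz
(semisimplicity) and `⟨M ⊗ N, P⟩ = ⟨M, P ⊗ N^⟩`. An elementary argument (files Schwarz, Ana, Ana2,
Ana3) shows that `⟨M, S ^ n⟩ / c (n)` converges to a real number `d (M)`, for a comparison sequence
`c (n)` which is asymptotic to `ρ (n)`; `d` is additive and multiplicative, and `d (M) ≥ 1` if
`M ≠ 0`. (It is a dimension function in the sense of Frobenius and Perron, for infinitely many simple
objects.) An additive functor `F` on the powers of `S` on which numerically trivial morphisms act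
nilpotently has constituents, which are simple numerical motives, each contributes its `d ≥ 1` to the
limit, and so there are finitely many of them if the lower limit is finite. Applied to
`F = Hom (1, -)` this gives the limit, the bound `j + 1`, and the structure. A numerically trivial
`α : 1 ⟶ S ^ m` has `α ^ {⊗ k} = 0` if `k ≥ N`, so the realisation of `α` is zero: homological and
numerical equivalence agree. Then the numerical quotient has a realisation after all, the ranks
`r (M)` bound the `d (M)` because of `⟨M ^ k, M ^ k⟩ ≤ r (M) ^ 2k`, and as the sums of both over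
complementary idempotents agree (the permutations of the factors span enough endomorphisms)
`d (M) = r (M)` is an integer.

Authors: helper23; the lemmas on semisimplicity, duality and constituents build on the files AF of
helper64 and the helpers named there.
-/

set_option autoImplicit false

open CategoryTheory MonoidalCategory Module Filter Topology
open Pool.Agent.Y112.SR Pool.Agent.Y112.KD Pool.Agent.N64.AF Pool.Agent.H23NC
open scoped ENNReal

namespace Pool.Agent.Results.MP_dd457d_ag.IndexWithoutSigns

universe v u w

/-- The index law for the endomorphisms of the tensor powers of any object, without the sign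
conjecture. -/
theorem result {C : Type u} [Category.{v} C] [Preadditive C] [MonoidalCategory C]
    [MonoidalPreadditive C] [SymmetricCategory C] [RightRigidCategory C]
    [Linear ℚ C] [MonoidalLinear ℚ C]
    {K : Type w} [Field K] [IsAlgClosed K] [Algebra ℚ K] (R : SuperRealisation C K)
    (hR : IsReal ℚ R) (T : C) (hT : ¬ NumTriv (𝟙 T)) :
    ∃ N : ℕ∞,
      Tendsto (fun n => ((dimE ℚ (tp T n ⟶ tp T n) : ℕ∞) : ℝ≥0∞) /
        finrank ℚ ((tp T n ⟶ tp T n) ⧸ numIdeal ℚ (tp T n) (tp T n))) atTop (𝓝 (N : ℝ≥0∞)) ∧
      N ≠ 0 ∧
      (N = 1 ↔ ∀ (n : ℕ) (f : tp T n ⟶ tp T n), NumTriv f → f = 0) ∧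
      (∀ (n : ℕ) (l : List (End (tp T n))),
        (∀ f ∈ l, NumTriv (Y := tp T n) (Z := tp T n) f) → l.prod ≠ 0 →
          (l.length : ℕ∞) + 1 ≤ N) ∧
      (HasUnit T → ∀ (n : ℕ) (x : 𝟙_ C ⟶ tp T n), NumTriv x → x ≠ 0 →
        2 ≤ N ∧ (R.H.map x ≠ 0 → N = ⊤)) ∧
      (N ≠ ⊤ →
        (∀ n : ℕ, Module.Finite ℚ (tp T n ⟶ tp T n)) ∧
        (∀ (n : ℕ) (f : tp T n ⟶ tp T n), NumTriv f → R.H.map f = 0) ∧
        ∃ (ι : Type) (_ : Fintype ι) (m : ι → ℕ)
          (e : ∀ i, tp (T ⊗ Tᘁ) (m i) ⟶ tp (T ⊗ Tᘁ) (m i)) (r : ι → ℕ),
          (∀ i, NumIdem (e i) ∧ IsRk R (e i) (r i) ∧ 0 < r i) ∧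
          N = 1 + (∑ i, r i : ℕ) ∧
          (∀ n, finrank ℚ (tp T n ⟶ tp T n) =
            finrank ℚ ((tp T n ⟶ tp T n) ⧸ numIdeal ℚ (tp T n) (tp T n)) +
              ∑ i, nr ℚ (e i) (𝟙 (tp (T ⊗ Tᘁ) n))) ∧
          ∃ (p l : ℕ) (z : Fin l → (𝟙_ C ⟶ tp (T ⊗ Tᘁ) p)), l ≤ Fintype.card ι ∧
            (∀ i, NumTriv (z i)) ∧ ∀ (n : ℕ) (y : 𝟙_ C ⟶ tp (T ⊗ Tᘁ) n), NumTriv y →
              y ∈ Submodule.span ℚ {y' : 𝟙_ C ⟶ tp (T ⊗ Tᘁ) n |
                ∃ (i : Fin l) (c : tp (T ⊗ Tᘁ) p ⟶ tp (T ⊗ Tᘁ) n), z i ≫ c = y'}) :=
  index_full hR hT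

end Pool.Agent.Results.MP_dd457d_ag.IndexWithoutSigns
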