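import Pool.Agent.H23VN.OneNum
import Pool.Agent.N64.AF.M6

/-!
# One class in the kernel of the Euler pairing

Let `𝒜` be a smooth proper dg category over the finite field `k`, and `x ∈ Ker (χ_ℚ)` an element of
`K_0 (𝒜)_ℚ`. Replacing `𝒜` by `𝒜 × 𝒜^op × k` we suppose that `𝒜` is equivalent to `𝒜^op` and has the
factor `k`. Let `V (n)` be the space of all elements of `K_0 (𝒜 ^ n)_ℚ` (the `n`-th tensor power)
which are generated by the ONE element `x`, i.e. the image of `K_0 (𝒜^op ⊗ 𝒜 ^ n)_ℚ` under
`f ↦ f (x)`, and `ρ (n)` the rank of `K_0 (𝒜 ^ n) / Ker (χ)`, the number of all elements of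
`K_0 (𝒜 ^ n)` up to the kernel of the Euler pairing.

Theorem. `dim V (n) / ρ (n)` converges, for `n → ∞`, to `0`, to a real number `N ≥ 1`, or to
infinity, and the limit is `0` only if `x = 0`. If it is finite, then all `V (n)` are
finite-dimensional, `x ^ {⊗ k} = 0` for `k > N`, and the realisation of `x` in `TP (𝒜)[1 / p]`
is zero. If `x` is not smash-nilpotent (for example, if its realisation is not zero), then
`V (n) / (its smash-nilpotent elements)` has dimension `≥ c ρ (n)` for every `c` and all large `n`.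

So the conjecture of the question for all smooth proper dg categories is equivalent to:

for each `𝒜` (with `𝒜^op = 𝒜` and the factor `k`) and each ONE class `x ∈ Ker (χ_ℚ)` of `𝒜` there is
`c < 1` such that `dim V (n) ≤ c ρ (n)` for infinitely many `n`.

Compared with IndexWithoutSigns, where `dim K_0 (𝒜 ^ n)` has to be known, only the space which is
generated by one class has to be estimated here. It is a quotient of `K_0 (𝒜^op ⊗ 𝒜 ^ n)_ℚ`, by
the right ideal of the correspondences which kill `x`.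

No sign conjecture is used. The setting is the one of IndexWithoutSigns: `C` is the category of
noncommutative Chow motives over `k` with rational coefficients, the elements of `K_0 (𝒜)_ℚ` are
the morphisms `1 ⟶ 𝒜`, `R` is `TP (-)[1 / p]`.

Authors: helper23; with the files AF of helper64 and the helpers named there.
-/

set_option autoImplicit false

open CategoryTheory MonoidalCategory Module Filter Topology
open Pool.Agent.Y112.SR Pool.Agent.Y112.KD Pool.Agent.N64.AF Pool.Agent.H23NC Pool.Agent.H23OB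
open Pool.Agent.H23VN
open scoped ENNReal

namespace Pool.Agent.Results.MP_dd457d_ag.OneClass

universe v u w

/-- The law for one numerically trivial class, and the criterion for the vanishing of all of them. -/
theorem result {C : Type u} [Category.{v} C] [Preadditive C] [MonoidalCategory C]
    [MonoidalPreadditive C] [SymmetricCategory C] [RightRigidCategory C]
    [Linear ℚ C] [MonoidalLinear ℚ C]
    {K : Type w} [Field K] [IsAlgClosed K] [Algebra ℚ K] (R : SuperRealisation C K)
    (hR : IsReal ℚ R)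
    (hs : ∀ X : C, ∃ (T : C) (i : X ⟶ T) (r : T ⟶ X), Nonempty (ExactPairing T T) ∧ HasUnit T ∧
      i ≫ r = 𝟙 X) :
    -- the criterion
    ((∀ (X : C) (x : 𝟙_ C ⟶ X), NumTriv x → x = 0) ↔
      ∀ T : C, Nonempty (ExactPairing T T) → HasUnit T → ∀ x : 𝟙_ C ⟶ T, NumTriv x →
        ∃ c : ℝ≥0∞, c < 1 ∧ ∃ᶠ n in atTop, share (gen x (tp T n)) ≤ c) ∧
    -- the law
    (∀ T : C, Nonempty (ExactPairing T T) → HasUnit T → ∀ (m : ℕ) (x : 𝟙_ C ⟶ tp T m),
      NumTriv x →
      (∃ N : ℝ≥0∞, Tendsto (fun n => share (gen x (tp T n))) atTop (𝓝 N) ∧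
        (N = 0 ∨ 1 ≤ N) ∧ (N = 0 ↔ x = 0) ∧ (∀ k : ℕ, N < k + 1 → tpow x (k + 1) = 0) ∧
        (R.H.map x ≠ 0 → N = ⊤) ∧
        (N ≠ ⊤ → (∀ n, Module.Finite ℚ (gen x (tp T n))) ∧
          ∃ (p l : ℕ) (z : Fin l → (𝟙_ C ⟶ tp T p)), (l : ℝ≥0∞) ≤ N ∧
            (∀ i, z i ∈ gen x (tp T p)) ∧ ∀ n, gen x (tp T n) =
              Submodule.span ℚ {y : 𝟙_ C ⟶ tp T n |
                ∃ (i : Fin l) (c : tp T p ⟶ tp T n), z i ≫ c = y})) ∧
      (SmashNil x ∨
        Tendsto (fun n => relShare (gen x (tp T n)) (smashSub ℚ (tp T n))) atTop (𝓝 ⊤))) := by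
  refine ⟨no_num_iff hR hs, ?_⟩
  rintro T ⟨_⟩ hT m x hx
  refine ⟨?_, one_num_infty hR hT hx⟩
  obtain ⟨N, h1, h2, h3, h4, h5⟩ := one_num hR hT hx
  refine ⟨N, h1, h2, h3, h4, fun hne => ?_, h5⟩
  by_contra hN
  obtain ⟨k, hk⟩ := ENNReal.exists_nat_gt hN
  have h6 := map_tpow_ne R hne (k + 1)
  rw [h4 k (hk.trans_le le_self_add), Functor.map_zero] at h6
  exact h6 rfl

end Pool.Agent.Results.MP_dd457d_ag.OneClass
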